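import Pool.Agent.W525.CB.Stm

set_option autoImplicit false

namespace Pool.Agent.W154.CB.NCH

open Pool.Agent.W525.CB

/-- Laurent polynomials in a transcendental element -/
theorem laurent {k E : Type} [Field k] [Field E] [Algebra k E] (A : Subalgebra k E)
    (K : IntermediateField k E) (hAK : ∀ a ∈ A, a ∈ K) (x0 : E) (hx : x0 ≠ 0)
    (htr : Transcendental K x0) (G : Set E)
    (hG : ∀ g ∈ G, ∃ (N : ℕ) (P : Polynomial A), g * x0 ^ N = Polynomial.aeval x0 P)
    (e : E) (he : e ∈ K) (heG : e ∈ Algebra.adjoin k G) : e ∈ A := by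
  have key : ∀ b ∈ Algebra.adjoin k G, ∃ (N : ℕ) (P : Polynomial A),
      b * x0 ^ N = Polynomial.aeval x0 P := by
    intro b hb
    induction hb using Algebra.adjoin_induction with
    | mem g hg => exact hG g hg
    | algebraMap r =>
      refine ⟨0, Polynomial.C (algebraMap k A r), ?_⟩
      rw [Polynomial.aeval_C, pow_zero, mul_one]
      rfl
    | add a b _ _ iha ihb =>
      obtain ⟨N, P, h1⟩ := iha
      obtain ⟨M, Q, h2⟩ := ihb
      refine ⟨N + M, P * Polynomial.X ^ M + Q * Polynomial.X ^ N, ?_⟩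
      rw [map_add, map_mul, map_mul, map_pow, map_pow, Polynomial.aeval_X, ← h1, ← h2]
      ring
    | mul a b _ _ iha ihb =>
      obtain ⟨N, P, h1⟩ := iha
      obtain ⟨M, Q, h2⟩ := ihb
      refine ⟨N + M, P * Q, ?_⟩
      rw [map_mul, ← h1, ← h2]
      ring
  obtain ⟨N, P, h⟩ := key e heG
  let ι : A →+* K :=
    { toFun := fun a => ⟨a.1, hAK a.1 a.2⟩
      map_one' := rfl
      map_mul' := fun _ _ => rfl
      map_zero' := rfl
      map_add' := fun _ _ => rfl }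
  have hι : (algebraMap K E).comp ι = algebraMap A E := rfl
  have h0 : Polynomial.aeval x0 (Polynomial.C (⟨e, he⟩ : K) * Polynomial.X ^ N - P.map ι) = 0 := by
    rw [map_sub, map_mul, map_pow, Polynomial.aeval_X, Polynomial.aeval_C]
    have h1 : Polynomial.aeval x0 (P.map ι) = (Polynomial.aeval x0 P : E) := by
      rw [Polynomial.aeval_def, Polynomial.eval₂_map, hι, Polynomial.aeval_def]
    rw [h1, ← h]
    exact sub_self _
  have h2 := (transcendental_iff.1 htr) _ h0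
  have h3 := congrArg (fun p => Polynomial.coeff p N) h2
  simp only [Polynomial.coeff_sub, Polynomial.coeff_C_mul, Polynomial.coeff_X_pow, if_true,
    mul_one, Polynomial.coeff_map, Polynomial.coeff_zero] at h3
  have h4 := congrArg (fun z : K => (z : E)) (sub_eq_zero.1 h3)
  have h5 : e = ((P.coeff N : A) : E) := h4
  rw [h5]
  exact (P.coeff N).2

theorem q_ne (n : ℕ) (k : Type) [Field k] [CharP k (n + 2)] : ((2 * n + 5 : ℕ) : k) ≠ 0 := by
  have h : ((n + 2 : ℕ) : k) = 0 := CharP.cast_eq_zero k (n + 2)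
  have h2 : ((2 * n + 5 : ℕ) : k) = 2 * ((n + 2 : ℕ) : k) + 1 := by push_cast; ring
  rw [h2, h, mul_zero, zero_add]
  exact one_ne_zero

theorem q_odd (n : ℕ) : Odd (2 * n + 5) := ⟨n + 2, by ring⟩

/-- the values of `θ` -/
noncomputable def th (k : Type) [Field k] (m : ℕ) (i : Fin m) : Polynomial k :=
  if i.val = 0 then Polynomial.X else if i.val = 1 then 1 else 0

theorem th_sum (k : Type) [Field k] (m q : ℕ) (hq : q ≠ 0) :
    ∑ i : Fin (m + 2), th k (m + 2) i ^ q = Polynomial.X ^ q + 1 := by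
  rw [Fin.sum_univ_succ, Fin.sum_univ_succ]
  have h : ∑ i : Fin m, th k (m + 2) i.succ.succ ^ q = 0 := by
    refine Finset.sum_eq_zero (fun i _ => ?_)
    have : th k (m + 2) i.succ.succ = 0 := by
      unfold th
      simp
    rw [this, zero_pow hq]
  rw [h, add_zero]
  simp [th]

theorem fermat_perm {n : ℕ} {E : Type} [Field E] {x y : Fin (n + 3) → E} (hd : Dat x y)
    (σ : Equiv.Perm (Fin (n + 3))) :
    x (σ 0) ^ (2 * n + 5) + ∑ i : Fin (n + 2), x (σ i.succ) ^ (2 * n + 5) = 0 := by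
  have h := hd.fermat
  rw [← Equiv.sum_comp σ, Fin.sum_univ_succ] at h
  exact h

theorem tt_zero {n : ℕ} {E : Type} [Field E] (x y : Fin (n + 3) → E)
    (σ : Equiv.Perm (Fin (n + 3))) : tt x y σ 0 = 0 := by
  simp [tt, uu]

theorem tt_one {n : ℕ} {E : Type} [Field E] {x y : Fin (n + 3) → E} (hd : Dat x y)
    (σ : Equiv.Perm (Fin (n + 3))) : tt x y σ 1 = 1 := by
  unfold tt
  apply div_self
  apply hd.nu
  intro h
  have := σ.injective h
  exact absurd this (by simp)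

theorem ss_zero {n : ℕ} {E : Type} [Field E] {x y : Fin (n + 3) → E} (hd : Dat x y)
    (σ : Equiv.Perm (Fin (n + 3))) : ss x σ 0 = 1 := div_self (hd.nx _)

theorem fin3 {n : ℕ} (i : Fin (n + 3)) : i = 0 ∨ i = 1 ∨ ∃ j : Fin (n + 1), i = j.succ.succ := by
  rcases Fin.eq_zero_or_eq_succ i with h | ⟨j, rfl⟩
  · exact Or.inl h
  · rcases Fin.eq_zero_or_eq_succ j with h | ⟨l, rfl⟩
    · exact Or.inr (Or.inl (by rw [h]; rfl))
    · exact Or.inr (Or.inr ⟨l, rfl⟩)

theorem partX (hN : S_NORM) (hT : S_TR) (hA : S_AI) (hR : S_REL) (hF : S_FF)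
    (n : ℕ) (k E : Type) [Field k] [IsAlgClosed k] [Fact (n + 2).Prime]
    [CharP k (n + 2)] [Field E] [Algebra k E] (x y : Fin (n + 3) → E) (hn : 1 ≤ n)
    (hE : EDat n k E x y) (σ : Equiv.Perm (Fin (n + 3))) :
    IntClosedIn (AX k x y σ : Set E) (FX k x y : Set E) := by
  have : CharP E (n + 2) := charP_of_injective_algebraMap (algebraMap k E).injective (n + 2)
  obtain ⟨-, -, hrel, -⟩ := hR n E x y hn hE.dat σ
  have hx0 : x (σ 0) ≠ 0 := hE.dat.nx _
  set z : Fin (n + 1) ⊕ Fin (n + 1) → E :=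
    Sum.elim (fun i => x (σ i.succ.succ)) (fun i => tt x y σ i.succ.succ) with hz
  set c : MvPolynomial (Fin (n + 1) ⊕ Fin (n + 1)) k :=
    (∑ i : Fin (n + 1), MvPolynomial.X (Sum.inl i) * MvPolynomial.X (Sum.inr i) ^ (n + 2)) ^
      (2 * n + 5) - ∑ i : Fin (n + 1), MvPolynomial.X (Sum.inl i) ^ (2 * n + 5) with hc
  set θ : MvPolynomial (Fin (n + 1) ⊕ Fin (n + 1)) k →ₐ[k] Polynomial k :=
    MvPolynomial.aeval (Sum.elim (fun i => th k (n + 1) i) (fun _ => 0)) with hθ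
  have hs1 : x (σ 1) = -∑ i : Fin (n + 1), x (σ i.succ.succ) * tt x y σ i.succ.succ ^ (n + 2) := by
    have h1 : ss x σ 1 = -∑ i : Fin (n + 1), ss x σ i.succ.succ * tt x y σ i.succ.succ ^ (n + 2) :=
      eq_neg_of_add_eq_zero_left hrel
    have h2 : x (σ 1) = ss x σ 1 * x (σ 0) := by unfold ss; field_simp
    rw [h2, h1, neg_mul, Finset.sum_mul]
    congr 1
    refine Finset.sum_congr rfl (fun i _ => ?_)
    unfold ss
    field_simp
  have hc1 : x (σ 0) ^ (2 * n + 5) = MvPolynomial.aeval z c := by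
    have h1 := fermat_perm hE.dat σ
    rw [Fin.sum_univ_succ] at h1
    have h2 : MvPolynomial.aeval z c
        = (∑ i : Fin (n + 1), x (σ i.succ.succ) * tt x y σ i.succ.succ ^ (n + 2)) ^ (2 * n + 5)
          - ∑ i : Fin (n + 1), x (σ i.succ.succ) ^ (2 * n + 5) := by
      simp only [hc, map_sub, map_pow, map_sum, map_mul, MvPolynomial.aeval_X, hz, Sum.elim_inl,
        Sum.elim_inr]
    rw [h2]
    have h3 : x (σ (Fin.succ 0)) ^ (2 * n + 5)
        = -(∑ i : Fin (n + 1), x (σ i.succ.succ) * tt x y σ i.succ.succ ^ (n + 2)) ^ (2 * n + 5) := by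
      have h4 : x (σ (Fin.succ 0)) = x (σ 1) := rfl
      rw [h4, hs1, (q_odd n).neg_pow]
    rw [h3] at h1
    linear_combination h1
  have hθc : θ c = -(Polynomial.X ^ (2 * n + 5) + 1) := by
    obtain ⟨m, rfl⟩ : ∃ m, n = m + 1 := ⟨n - 1, by omega⟩
    have h1 : θ c = (∑ i : Fin (m + 1 + 1), th k (m + 1 + 1) i * (0 : Polynomial k) ^ (m + 1 + 2)) ^
        (2 * (m + 1) + 5) - ∑ i : Fin (m + 1 + 1), th k (m + 1 + 1) i ^ (2 * (m + 1) + 5) := by
      simp only [hc, hθ, map_sub, map_pow, map_sum, map_mul, MvPolynomial.aeval_X, Sum.elim_inl,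
        Sum.elim_inr]
    rw [h1, th_sum k m _ (by omega)]
    simp
  have hnorm := hN k E (Fin (n + 1) ⊕ Fin (n + 1)) z (2 * n + 5) c (x (σ 0)) θ (q_odd n)
    (q_ne n k) (hA n k E x y hn hE σ).1 hx0 hc1 hθc
  -- membership of the generators
  have hgen : ∀ (S : Set E) (hadd : ∀ a ∈ S, ∀ b ∈ S, a + b ∈ S) (hmul : ∀ a ∈ S, ∀ b ∈ S, a * b ∈ S)
      (hneg : ∀ a ∈ S, -a ∈ S) (h0 : (0 : E) ∈ S) (h1 : (1 : E) ∈ S) (hinv : (x (σ 0))⁻¹ ∈ S)
      (hzz : ∀ i, z i ∈ S) (g : E), g ∈ Set.range (ss x σ) ∪ Set.range (tt x y σ) → g ∈ S := by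
    intro S hadd hmul hneg h0 h1 hinv hzz g hg
    have hpow : ∀ a ∈ S, ∀ m : ℕ, a ^ m ∈ S := by
      intro a ha m
      induction m with
      | zero => rw [pow_zero]; exact h1
      | succ m ih => rw [pow_succ]; exact hmul _ ih _ ha
    have htt : ∀ i : Fin (n + 1), tt x y σ i.succ.succ ∈ S := fun i => hzz (Sum.inr i)
    have hss : ∀ i : Fin (n + 1), ss x σ i.succ.succ ∈ S := fun i => by
      have h2 : ss x σ i.succ.succ = x (σ i.succ.succ) * (x (σ 0))⁻¹ := div_eq_mul_inv _ _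
      rw [h2]
      exact hmul _ (hzz (Sum.inl i)) _ hinv
    rcases hg with ⟨i, rfl⟩ | ⟨i, rfl⟩
    · rcases fin3 i with rfl | rfl | ⟨j, rfl⟩
      · rw [ss_zero hE.dat]; exact h1
      · rw [eq_neg_of_add_eq_zero_left hrel]
        apply hneg
        exact Finset.sum_induction _ (fun a => a ∈ S) (fun a b ha hb => hadd a ha b hb) h0
          (fun i _ => hmul _ (hss i) _ (hpow _ (htt i) _))
      · exact hss j
    · rcases fin3 i with rfl | rfl | ⟨j, rfl⟩
      · rw [tt_zero]; exact h0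
      · rw [tt_one hE.dat]; exact h1
      · exact htt j
  have hAXsub : ∀ a ∈ AX k x y σ, a ∈ Algebra.adjoin k (Set.range z ∪ {x (σ 0), (x (σ 0))⁻¹}) := by
    intro a ha
    refine (Algebra.adjoin_le (S := Algebra.adjoin k (Set.range z ∪ {x (σ 0), (x (σ 0))⁻¹})) ?_) ha
    intro g hg
    exact hgen (Algebra.adjoin k (Set.range z ∪ {x (σ 0), (x (σ 0))⁻¹}) : Set E)
      (fun a ha b hb => add_mem ha hb) (fun a ha b hb => mul_mem ha hb) (fun a ha => neg_mem ha)
      (zero_mem _) (one_mem _) (Algebra.subset_adjoin (Or.inr (Or.inr rfl)))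
      (fun i => Algebra.subset_adjoin (Or.inl ⟨i, rfl⟩)) g hg
  have hFXsub : ∀ a ∈ FX k x y, a ∈ IntermediateField.adjoin k (Set.range z ∪ {x (σ 0)}) := by
    intro a ha
    rw [← (hF n k E x y hn hE).1 σ] at ha
    refine (IntermediateField.adjoin_le_iff
      (T := IntermediateField.adjoin k (Set.range z ∪ {x (σ 0)}))).2 ?_ ha
    intro g hg
    exact hgen (IntermediateField.adjoin k (Set.range z ∪ {x (σ 0)}) : Set E)
      (fun a ha b hb => add_mem ha hb) (fun a ha b hb => mul_mem ha hb) (fun a ha => neg_mem ha)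
      (zero_mem _) (one_mem _)
      (inv_mem (IntermediateField.subset_adjoin k _ (Or.inr rfl)))
      (fun i => IntermediateField.subset_adjoin k _ (Or.inl ⟨i, rfl⟩)) g hg
  have hAXFX : ∀ a ∈ AX k x y σ, a ∈ FX k x y := by
    intro a ha
    rw [← (hF n k E x y hn hE).1 σ]
    refine (Algebra.adjoin_le (S := (IntermediateField.adjoin k
      (Set.range (ss x σ) ∪ Set.range (tt x y σ))).toSubalgebra) ?_) ha
    exact IntermediateField.subset_adjoin k _
  intro e he hint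
  obtain ⟨q, hq1, hq2, hq3⟩ := hint
  have he1 := hnorm e (hFXsub e he) ⟨q, hq1, fun i => hAXsub _ (hq2 i), hq3⟩
  refine laurent (AX k x y σ) (FX k x y) hAXFX (x (σ 0)) hx0 ((hT n k E x y hn hE).2.2 (σ 0))
    (Set.range z ∪ {x (σ 0), (x (σ 0))⁻¹}) ?_ e he he1
  have hsm : ∀ i, ss x σ i ∈ AX k x y σ := fun i => Algebra.subset_adjoin (Or.inl ⟨i, rfl⟩)
  have htm : ∀ i, tt x y σ i ∈ AX k x y σ := fun i => Algebra.subset_adjoin (Or.inr ⟨i, rfl⟩)
  rintro g (⟨i, rfl⟩ | hg)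
  · rcases i with i | i
    · refine ⟨0, Polynomial.C ⟨ss x σ i.succ.succ, hsm _⟩ * Polynomial.X, ?_⟩
      rw [map_mul, Polynomial.aeval_C, Polynomial.aeval_X, pow_zero, mul_one]
      show x (σ i.succ.succ) = ss x σ i.succ.succ * x (σ 0)
      unfold ss
      field_simp
    · refine ⟨0, Polynomial.C ⟨tt x y σ i.succ.succ, htm _⟩, ?_⟩
      rw [Polynomial.aeval_C, pow_zero, mul_one]
      rfl
  · rcases hg with rfl | hg
    · exact ⟨0, Polynomial.X, by rw [Polynomial.aeval_X, pow_zero, mul_one]⟩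
    · rw [Set.mem_singleton_iff] at hg
      subst hg
      exact ⟨1, 1, by rw [map_one, pow_one, inv_mul_cancel₀ hx0]⟩

theorem partZ (hN : S_NORM) (hT : S_TR) (hA : S_AI) (hF : S_FF)
    (n : ℕ) (k E : Type) [Field k] [IsAlgClosed k] [Fact (n + 2).Prime]
    [CharP k (n + 2)] [Field E] [Algebra k E] (x y : Fin (n + 3) → E) (hn : 1 ≤ n)
    (hE : EDat n k E x y) (σ : Equiv.Perm (Fin (n + 3))) :
    IntClosedIn (AZ k x σ : Set E) (FZ k x : Set E) := by
  have hx0 : x (σ 0) ≠ 0 := hE.dat.nx _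
  set z : Fin (n + 2) → E := fun i => x (σ i.succ) with hz
  set c : MvPolynomial (Fin (n + 2)) k := -∑ i : Fin (n + 2), MvPolynomial.X i ^ (2 * n + 5) with hc
  set θ : MvPolynomial (Fin (n + 2)) k →ₐ[k] Polynomial k :=
    MvPolynomial.aeval (fun i => th k (n + 2) i) with hθ
  have hc1 : x (σ 0) ^ (2 * n + 5) = MvPolynomial.aeval z c := by
    have h1 := fermat_perm hE.dat σ
    have h2 : MvPolynomial.aeval z c = -∑ i : Fin (n + 2), x (σ i.succ) ^ (2 * n + 5) := by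
      simp only [hc, map_neg, map_pow, map_sum, MvPolynomial.aeval_X, hz]
    rw [h2]
    linear_combination h1
  have hθc : θ c = -(Polynomial.X ^ (2 * n + 5) + 1) := by
    have h1 : θ c = -∑ i : Fin (n + 2), th k (n + 2) i ^ (2 * n + 5) := by
      simp only [hc, hθ, map_neg, map_pow, map_sum, MvPolynomial.aeval_X]
    rw [h1, th_sum k n _ (by omega)]
  have hnorm := hN k E (Fin (n + 2)) z (2 * n + 5) c (x (σ 0)) θ (q_odd n)
    (q_ne n k) (hA n k E x y hn hE σ).2 hx0 hc1 hθc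
  have hss : ∀ (S : Set E) (hmul : ∀ a ∈ S, ∀ b ∈ S, a * b ∈ S) (h1 : (1 : E) ∈ S)
      (hinv : (x (σ 0))⁻¹ ∈ S) (hzz : ∀ i, z i ∈ S) (g : E), g ∈ Set.range (ss x σ) → g ∈ S := by
    rintro S hmul h1 hinv hzz g ⟨i, rfl⟩
    rcases Fin.eq_zero_or_eq_succ i with rfl | ⟨j, rfl⟩
    · rw [ss_zero hE.dat]; exact h1
    · have h2 : ss x σ j.succ = x (σ j.succ) * (x (σ 0))⁻¹ := div_eq_mul_inv _ _
      rw [h2]
      exact hmul _ (hzz j) _ hinv
  have hAZsub : ∀ a ∈ AZ k x σ, a ∈ Algebra.adjoin k (Set.range z ∪ {x (σ 0), (x (σ 0))⁻¹}) := by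
    intro a ha
    refine (Algebra.adjoin_le (S := Algebra.adjoin k (Set.range z ∪ {x (σ 0), (x (σ 0))⁻¹})) ?_) ha
    intro g hg
    exact hss (Algebra.adjoin k (Set.range z ∪ {x (σ 0), (x (σ 0))⁻¹}) : Set E)
      (fun a ha b hb => mul_mem ha hb)
      (one_mem _) (Algebra.subset_adjoin (Or.inr (Or.inr rfl)))
      (fun i => Algebra.subset_adjoin (Or.inl ⟨i, rfl⟩)) g hg
  have hFZsub : ∀ a ∈ FZ k x, a ∈ IntermediateField.adjoin k (Set.range z ∪ {x (σ 0)}) := by
    intro a ha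
    rw [← (hF n k E x y hn hE).2 σ] at ha
    refine (IntermediateField.adjoin_le_iff
      (T := IntermediateField.adjoin k (Set.range z ∪ {x (σ 0)}))).2 ?_ ha
    intro g hg
    exact hss (IntermediateField.adjoin k (Set.range z ∪ {x (σ 0)}) : Set E)
      (fun a ha b hb => mul_mem ha hb) (one_mem _)
      (inv_mem (IntermediateField.subset_adjoin k _ (Or.inr rfl)))
      (fun i => IntermediateField.subset_adjoin k _ (Or.inl ⟨i, rfl⟩)) g hg
  have hFZFX : FZ k x ≤ FX k x y := by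
    unfold FZ FX
    exact IntermediateField.adjoin.mono k _ _ Set.subset_union_left
  have hAZFX : ∀ a ∈ AZ k x σ, a ∈ FX k x y := by
    intro a ha
    apply hFZFX
    rw [← (hF n k E x y hn hE).2 σ]
    refine (Algebra.adjoin_le (S := (IntermediateField.adjoin k
      (Set.range (ss x σ))).toSubalgebra) ?_) ha
    exact IntermediateField.subset_adjoin k _
  intro e he hint
  obtain ⟨q, hq1, hq2, hq3⟩ := hint
  have he1 := hnorm e (hFZsub e he) ⟨q, hq1, fun i => hAZsub _ (hq2 i), hq3⟩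
  refine laurent (AZ k x σ) (FX k x y) hAZFX (x (σ 0)) hx0 ((hT n k E x y hn hE).2.2 (σ 0))
    (Set.range z ∪ {x (σ 0), (x (σ 0))⁻¹}) ?_ e (hFZFX he) he1
  have hsm : ∀ i, ss x σ i ∈ AZ k x σ := fun i => Algebra.subset_adjoin ⟨i, rfl⟩
  rintro g (⟨i, rfl⟩ | hg)
  · refine ⟨0, Polynomial.C ⟨ss x σ i.succ, hsm _⟩ * Polynomial.X, ?_⟩
    rw [map_mul, Polynomial.aeval_C, Polynomial.aeval_X, pow_zero, mul_one]
    show x (σ i.succ) = ss x σ i.succ * x (σ 0)
    unfold ss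
    field_simp
  · rcases hg with rfl | hg
    · exact ⟨0, Polynomial.X, by rw [Polynomial.aeval_X, pow_zero, mul_one]⟩
    · rw [Set.mem_singleton_iff] at hg
      subst hg
      exact ⟨1, 1, by rw [map_one, pow_one, inv_mul_cancel₀ hx0]⟩

theorem main : S_NORM → S_TR → S_AI → S_REL → S_FF → S_NCH := by
  intro hN hT hA hR hF n k E _ _ _ _ _ _ x y hn hE σ
  exact ⟨partX hN hT hA hR hF n k E x y hn hE σ, partZ hN hT hA hF n k E x y hn hE σ⟩

end Pool.Agent.W154.CB.NCH
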